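import Mathlib

set_option autoImplicit false

open Polynomial

namespace Pool.Agent.Results.MP_106bf9_an.SharpForAllM

/-- For every `m ≥ 2` there is a polynomial `P` of degree `2 m` with at least two distinct zeros and
`m` orders of differentiation for which `P` and the `m` derivatives have only `m + 1` distinct zeros
together. -/
theorem result : ∀ m : ℕ, 2 ≤ m → ∃ (P : ℂ[X]) (r : Fin m → ℕ),
    P.natDegree = 2 * m ∧ 2 ≤ P.roots.toFinset.card ∧ StrictMono r ∧
    (∀ k, 1 ≤ r k ∧ r k ≤ 2 * m - 1) ∧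
    (P.roots.toFinset ∪ Finset.univ.biUnion
      (fun k : Fin m => (derivative^[r k] P).roots.toFinset)).card = m + 1 := by
  intro m hm
  classical
  have hm0 : m ≠ 0 := by omega
  set Q : ℂ[X] := X ^ m - 1 with hQ
  have hQmonic : Q.Monic := by
    have := monic_X_pow_sub_C (1 : ℂ) hm0
    simpa [hQ] using this
  have hQdeg : Q.natDegree = m := by
    have := natDegree_X_pow_sub_C (n := m) (r := (1 : ℂ))
    simpa [hQ] using this
  set P : ℂ[X] := Q ^ 2 with hP
  have hPmonic : P.Monic := hQmonic.pow 2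
  have hPexp : P = X ^ (2 * m) - 2 * X ^ m + 1 := by
    rw [hP, hQ]; ring
  have hPdeg : P.natDegree = 2 * m := by
    rw [hP, hQmonic.natDegree_pow, hQdeg]
  have hPne : P ≠ 0 := hPmonic.ne_zero
  -- zeros of P
  have hPz : ∀ z : ℂ, z ∈ P.roots.toFinset ↔ z ^ m = 1 := by
    intro z
    rw [Multiset.mem_toFinset, mem_roots hPne, IsRoot.def, hP, hQ]
    simp [sub_eq_zero]
  -- first derivative
  have hd1 : derivative P = C (2 * m : ℂ) * (X ^ (m - 1) * Q) := by
    rw [hP, hQ]
    obtain ⟨k, rfl⟩ : ∃ k, m = k + 1 := ⟨m - 1, by omega⟩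
    simp [derivative_pow]
    ring
  have hd1z : ∀ z : ℂ, z ∈ (derivative P).roots.toFinset ↔ z = 0 ∨ z ^ m = 1 := by
    intro z
    have hne : derivative P ≠ 0 := by
      rw [hd1]
      have h2m : (2 * m : ℂ) ≠ 0 := by
        have : (m : ℂ) ≠ 0 := Nat.cast_ne_zero.mpr hm0
        simpa using this
      exact mul_ne_zero (C_ne_zero.mpr h2m) (mul_ne_zero (pow_ne_zero _ X_ne_zero) hQmonic.ne_zero)
    rw [Multiset.mem_toFinset, mem_roots hne, IsRoot.def, hd1, hQ]
    have hm' : (m : ℂ) ≠ 0 := Nat.cast_ne_zero.mpr hm0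
    have hm1 : m - 1 ≠ 0 := by omega
    simp [sub_eq_zero, hm', hm1]
  -- higher derivatives
  have hdj : ∀ j, m < j → j ≤ 2 * m - 1 →
      derivative^[j] P = C ((2 * m).descFactorial j : ℂ) * X ^ (2 * m - j) := by
    intro j hj1 hj2
    rw [hPexp, iterate_map_add, iterate_derivative_sub, iterate_derivative_X_pow_eq_C_mul]
    have h1 : derivative^[j] (2 * X ^ m : ℂ[X]) = 0 := by
      have : (2 * X ^ m : ℂ[X]) = C 2 * X ^ m := rfl
      rw [this, iterate_derivative_C_mul, iterate_derivative_X_pow_eq_C_mul,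
        Nat.descFactorial_of_lt hj1]
      simp
    have h2 : derivative^[j] (1 : ℂ[X]) = 0 := by
      have : (1 : ℂ[X]) = C 1 := by simp
      rw [this, iterate_derivative_C (by omega)]
    rw [h1, h2]
    simp
  have hdjz : ∀ j, m < j → j ≤ 2 * m - 1 → ∀ z : ℂ,
      z ∈ (derivative^[j] P).roots.toFinset ↔ z = 0 := by
    intro j hj1 hj2 z
    have hc : ((2 * m).descFactorial j : ℂ) ≠ 0 := by
      have : (2 * m).descFactorial j ≠ 0 := by
        rw [Ne, Nat.descFactorial_eq_zero_iff_lt]
        omega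
      exact_mod_cast this
    have hne : derivative^[j] P ≠ 0 := by
      rw [hdj j hj1 hj2]
      exact mul_ne_zero (C_ne_zero.mpr hc) (pow_ne_zero _ X_ne_zero)
    rw [Multiset.mem_toFinset, mem_roots hne, IsRoot.def, hdj j hj1 hj2]
    have h3 : 2 * m - j ≠ 0 := by omega
    simp [hc, h3]
  -- the orders
  let r : Fin m → ℕ := fun k => if (k : ℕ) = 0 then 1 else m + k
  have hr0 : ∀ k : Fin m, (k : ℕ) = 0 → r k = 1 := by
    intro k hk; simp [r, hk]
  have hr1 : ∀ k : Fin m, (k : ℕ) ≠ 0 → r k = m + k := by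
    intro k hk; simp [r, hk]
  refine ⟨P, r, hPdeg, ?_, ?_, ?_, ?_⟩
  · have hcard : P.roots.toFinset = (nthRoots m (1 : ℂ)).toFinset := by
      ext z
      rw [hPz, Multiset.mem_toFinset, mem_nthRoots (by omega)]
    have hprim := Complex.isPrimitiveRoot_exp m hm0
    have h4 := hprim.card_nthRootsFinset
    rw [nthRootsFinset_def] at h4
    rw [hcard, h4]
    exact hm
  · intro a b hab
    have hab' : (a : ℕ) < b := hab
    rw [hr1 b (by omega)]
    by_cases ha : (a : ℕ) = 0
    · rw [hr0 a ha]; omega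
    · rw [hr1 a ha]; omega
  · intro k
    have hk := k.isLt
    by_cases hk0 : (k : ℕ) = 0
    · rw [hr0 k hk0]; omega
    · rw [hr1 k hk0]; omega
  · have hun : (P.roots.toFinset ∪ Finset.univ.biUnion
        (fun k : Fin m => (derivative^[r k] P).roots.toFinset)) =
        insert (0 : ℂ) (nthRootsFinset m (1 : ℂ)) := by
      ext z
      rw [Finset.mem_union, Finset.mem_biUnion, Finset.mem_insert, mem_nthRootsFinset (by omega),
        hPz]
      constructor
      · rintro (h | ⟨k, -, hk⟩)
        · exact Or.inr h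
        · by_cases hk0 : (k : ℕ) = 0
          · rw [hr0 k hk0] at hk
            exact (hd1z z).mp hk
          · rw [hr1 k hk0] at hk
            left
            exact (hdjz (m + k) (by omega) (by have := k.isLt; omega) z).mp hk
      · rintro (h | h)
        · right
          refine ⟨⟨0, by omega⟩, Finset.mem_univ _, ?_⟩
          rw [hr0 ⟨0, by omega⟩ rfl]
          exact (hd1z z).mpr (Or.inl h)
        · exact Or.inl h
    rw [hun, Finset.card_insert_of_notMem, (Complex.isPrimitiveRoot_exp m hm0).card_nthRootsFinset]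
    rw [mem_nthRootsFinset (by omega)]
    simp [hm0]

end Pool.Agent.Results.MP_106bf9_an.SharpForAllM
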